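import Pool.Agent.W312.WT.Stm

/-! # Correctness of the solution -/

set_option autoImplicit false

namespace Pool.Agent.W638.WT

open Pool.Agent.W312.WT

theorem inR_topH (L : List Jb) (x : Jb) (hx : x ∈ L) : inR 0 (topH L) x = true := by
  have h1 : x.2.1 + 1 ≤ topH L :=
    List.single_le_sum (l := L.map fun x : Jb => x.2.1 + 1) (by simp) _
      (List.mem_map_of_mem (f := fun x : Jb => x.2.1 + 1) hx)
  simp only [inR, Bool.and_eq_true, decide_eq_true_eq]
  omega

theorem mem_cands (p : ℕ) (L : List Jb) (k : ℕ) (hk : k ≤ L.length) : k * p ∈ cands p L := by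
  unfold cands
  rw [List.mem_flatMap]
  refine ⟨k, List.mem_range.2 (by omega), ?_⟩
  rw [List.mem_map]
  exact ⟨0, by simp [resid], by simp⟩

theorem chain0 (p : ℕ) : ∀ (l : List Jb) (s : ℕ),
    ChnT p s (s * p) ((l.zipIdx s).map fun q => (q.2 + 1) * p)
  | [], s => by simp [ChnT]
  | x :: l, s => by
    rw [List.zipIdx_cons, List.map_cons]
    have h := chain0 p l (s + 1)
    refine ⟨?_, ?_, ?_, h⟩
    · exact Nat.mul_le_mul_right _ (Nat.le_succ s)
    · simp only; rw [Nat.add_mul]; omega
    · exact Nat.le_add_left _ _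

theorem proof_SSol : SSol := by
  intro hbst hsrw htbl hdec hsnd hcmp htab hini p L hp
  obtain ⟨hperm, hsort⟩ := hsrw L
  obtain ⟨hA, hC⟩ := htbl hdec hsnd hcmp hbst htab hini p L (sortW L) hsort
    (fun x hx => hperm.mem_iff.1 hx)
  have hfil : (sortW L).reverse.filter (inR 0 (topH L)) = (sortW L).reverse := by
    rw [List.filter_eq_self]
    intro x hx
    exact inR_topH L x (hperm.mem_iff.1 (List.mem_reverse.1 hx))
  have hperm' : L.Perm ((sortW L).reverse.filter (inR 0 (topH L))) := by
    rw [hfil]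
    exact hperm.symm.trans (List.reverse_perm _).symm
  have h0 : 0 ∈ cands p L := by
    have := mem_cands p L 0 (Nat.zero_le _)
    simpa using this
  have key : ∀ l : List (Jb × ℕ), (l.map Prod.fst).Perm L → ChnT p 0 0 (l.map Prod.snd) →
      (∀ e ∈ l, e.2 ∈ cands p L) →
      ∃ e ∈ (table p L (sortW L)).filter (isFull L), cst e.2 ≤ cst l := by
    intro l hl hch hc
    have hlen : l.length = L.length := by
      have := hl.length_eq
      simpa using this
    obtain ⟨e, he, he1, he2⟩ := hC 0 (by simp [ths]) (topH L) (by simp [ths]) (Nat.zero_le _) 0 0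
      h0 l (hl.trans hperm') (by omega) hc hch
    refine ⟨e, ?_, he2⟩
    rw [List.mem_filter]
    refine ⟨he, ?_⟩
    unfold isFull
    rw [he1]
    simp [hlen]
  have hne : ∃ f, best ((table p L (sortW L)).filter (isFull L)) = some f := by
    obtain ⟨e, he, -⟩ := key ((L.zipIdx).map fun q => (q.1, (q.2 + 1) * p)) (by
        rw [List.map_map]
        have : (Prod.fst ∘ fun q : Jb × ℕ => (q.1, (q.2 + 1) * p)) = Prod.fst := rfl
        rw [this, List.zipIdx_map_fst]) (by
        rw [List.map_map]
        have h := chain0 p L 0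
        rw [Nat.zero_mul] at h
        exact h) (by
        intro e he
        rw [List.mem_map] at he
        obtain ⟨q, hq, rfl⟩ := he
        have h2 := List.snd_lt_of_mem_zipIdx hq
        exact mem_cands p L (q.2 + 1) (by omega))
    obtain ⟨f, hf, -⟩ := hbst.2 _ e he
    exact ⟨f, hf⟩
  obtain ⟨f, hf⟩ := hne
  have hsol : solve p L = f.2 := by
    unfold solve
    rw [hf]
  have hfm := hbst.1 _ f hf
  rw [List.mem_filter] at hfm
  obtain ⟨hft, hfull⟩ := hfm
  obtain ⟨hg, -, -⟩ := hA f hft
  obtain ⟨g1, g2, g3, g4⟩ := hg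
  unfold isFull at hfull
  simp only [Bool.and_eq_true, decide_eq_true_eq] at hfull
  obtain ⟨f1, f2, f3⟩ := hfull
  rw [hsol]
  refine ⟨?_, ?_, ?_⟩
  · rw [f1] at g1
    exact g1.trans hperm'.symm
  · rw [f2, f3] at g2
    exact g2
  · intro l hl hch hc
    obtain ⟨e, he, he2⟩ := key l hl hch hc
    obtain ⟨f', hf', hle⟩ := hbst.2 _ e he
    rw [hf] at hf'
    obtain rfl := Option.some.inj hf'
    exact hle.trans he2

end Pool.Agent.W638.WT
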